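import Pool.Agent.Helper88.MT.Stm

/-!
Package EXT of the project MT (helper88): a valuation ring above, stable under the automorphisms.
-/

set_option autoImplicit false

namespace Pool.Agent.Helper31.MT

open Pool.Agent.Helper88.MT

theorem exists_above {L N : Type} [Field L] [Field N] [Algebra L N] (O : ValuationSubring L) :
    ∃ W : ValuationSubring N, (∀ x ∈ O, algebraMap L N x ∈ W) ∧
      ∀ x : L, O.valuation x < 1 → W.valuation (algebraMap L N x) < 1 := by
  let A : Subring N := O.toSubring.map (algebraMap L N)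
  let I : Ideal A :=
    { carrier := {a | ∃ x : L, O.valuation x < 1 ∧ algebraMap L N x = a.1}
      add_mem' := by
        rintro a b ⟨x, hx, hxa⟩ ⟨y, hy, hyb⟩
        exact ⟨x + y, O.valuation.map_add_lt hx hy, by rw [map_add, hxa, hyb]; rfl⟩
      zero_mem' := ⟨0, by rw [map_zero]; exact zero_lt_one, by rw [map_zero]; rfl⟩
      smul_mem' := by
        rintro ⟨c, c', hc', rfl⟩ a ⟨x, hx, hxa⟩
        refine ⟨c' * x, ?_, by rw [map_mul, hxa]; rfl⟩
        rw [map_mul]
        exact (mul_le_of_le_one_left' ((O.valuation_le_one_iff c').2 hc')).trans_lt hx }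
  have hI : I ≠ ⊤ := by
    intro h
    have h1 : (1 : A) ∈ I := by rw [h]; exact Submodule.mem_top
    obtain ⟨x, hx, hx1⟩ := h1
    have h2 : x = 1 := (algebraMap L N).injective (by rw [hx1, map_one]; rfl)
    rw [h2, map_one] at hx
    exact lt_irrefl _ hx
  obtain ⟨W, hW1, hW2⟩ := Ideal.image_subset_nonunits_valuationSubring I hI
  refine ⟨W, fun x hx => hW1 ⟨x, hx, rfl⟩, fun x hx => ?_⟩
  rw [← ValuationSubring.mem_nonunits_iff]
  have hxO : x ∈ O := (O.valuation_le_one_iff x).1 hx.le
  exact hW2 ⟨⟨algebraMap L N x, ⟨x, hxO, rfl⟩⟩, ⟨x, hx, rfl⟩, rfl⟩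

/-- Package EXT. -/
theorem ext : S_ext := by
  classical
  intro k L N _ _ _ _ _ _ _ B _ hspan O hk hres
  obtain ⟨W, hW1, hW2⟩ := exists_above (N := N) O
  have hcomap : W.comap (algebraMap L N) = O := by
    ext x
    rw [ValuationSubring.mem_comap]
    refine ⟨fun h => ?_, hW1 x⟩
    by_contra hx
    rw [← O.valuation_le_one_iff, not_le] at hx
    have hx0 : x ≠ 0 := by
      rintro rfl
      rw [map_zero] at hx
      exact not_lt.2 zero_le_one hx
    have h1 : O.valuation x⁻¹ < 1 := by
      rw [map_inv₀]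
      exact inv_lt_one_of_one_lt₀ hx
    have h2 := hW2 _ h1
    have h3 := (W.valuation_le_one_iff _).2 h
    have h4 : W.valuation (algebraMap L N x) * W.valuation (algebraMap L N x⁻¹) = 1 := by
      rw [← map_mul, ← map_mul, mul_inv_cancel₀ hx0, map_one, map_one]
    have h5 : W.valuation (algebraMap L N x) * W.valuation (algebraMap L N x⁻¹) < 1 :=
      (mul_le_of_le_one_left' h3).trans_lt h2
    rw [h4] at h5
    exact lt_irrefl _ h5
  -- the constants
  have hB : ∀ b ∈ B, b ∈ W := by
    intro b hb
    have h1 : IsIntegral k b :=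
      ((Algebra.IsAlgebraic.isAlgebraic (R := k) (⟨b, hb⟩ : B)).isIntegral).map B.val
    let f : k →+* W := (algebraMap k N).codRestrict W.toSubring (fun c => by
      rw [IsScalarTower.algebraMap_apply k L N]
      exact hW1 _ (hk c))
    obtain ⟨p, hp, hpb⟩ := h1
    have h2 : IsIntegral W b := ⟨p.map f, hp.map f, by
      rw [Polynomial.eval₂_map]
      exact hpb⟩
    obtain ⟨y, hy⟩ := IsIntegrallyClosed.isIntegral_iff.1 h2
    rw [← hy]
    exact y.2
  have hB1 : ∀ b ∈ B, b ≠ 0 → W.valuation b = 1 := by
    intro b hb hb0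
    have h1 := (W.valuation_le_one_iff _).2 (hB b hb)
    have h2 := (W.valuation_le_one_iff _).2 (hB b⁻¹ (B.inv_mem hb))
    have h4 : W.valuation b * W.valuation b⁻¹ = 1 := by
      rw [← map_mul, mul_inv_cancel₀ hb0, map_one]
    refine le_antisymm h1 ?_
    rw [← h4]
    exact mul_le_of_le_one_right' h2
  have key : ∀ y : N, y ≠ 0 → ∃ x : L, ∀ τ : N ≃ₐ[L] N, (∀ b ∈ B, τ b ∈ B) →
      W.valuation (τ y) = W.valuation (algebraMap L N x) := by
    intro y hy0
    let β := Module.Basis.ofVectorSpace k B
    have h1 : y ∈ Submodule.span L (Set.range fun i => ((β i : B) : N)) := by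
      refine Submodule.span_le.2 ?_ (hspan y)
      intro b hb
      have h2 : (β.repr ⟨b, hb⟩).sum (fun i a => a • β i) = ⟨b, hb⟩ :=
        β.linearCombination_repr ⟨b, hb⟩
      have h3 := congrArg B.val h2
      rw [Finsupp.sum, map_sum] at h3
      change _ = b at h3
      rw [← h3]
      refine Submodule.sum_mem _ fun i _ => ?_
      rw [map_smul, algebra_compatible_smul L]
      exact Submodule.smul_mem _ _ (Submodule.subset_span ⟨i, rfl⟩)
    obtain ⟨c, hc⟩ := Finsupp.mem_span_range_iff_exists_finsupp.1 h1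
    have hne : c.support.Nonempty := by
      rw [Finset.nonempty_iff_ne_empty]
      intro h0
      apply hy0
      rw [← hc, Finsupp.sum, h0, Finset.sum_empty]
    obtain ⟨j, hj, hmax⟩ := c.support.exists_max_image (fun i => O.valuation (c i)) hne
    have hcj : c j ≠ 0 := Finsupp.mem_support_iff.1 hj
    have hvj : O.valuation (c j) ≠ 0 := (Valuation.ne_zero_iff _).2 hcj
    have hd : ∀ i, ∃ d : k, i ∈ c.support → O.valuation (c i / c j - algebraMap k L d) < 1 := by
      intro i
      by_cases hi : i ∈ c.support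
      · obtain ⟨d, hd⟩ := hres (c i / c j) (by
          rw [← O.valuation_le_one_iff, map_div₀]
          exact div_le_one_of_le₀ (hmax i hi) zero_le)
        exact ⟨d, fun _ => hd⟩
      · exact ⟨0, fun h => absurd h hi⟩
    choose d hd using hd
    let b0 : B := ∑ i ∈ c.support, d i • β i
    have hb0 : b0 ≠ 0 := by
      intro h0
      have h2 := linearIndependent_iff'.1 β.linearIndependent c.support d h0 j hj
      have h3 := hd j hj
      rw [h2, map_zero, sub_zero, div_self hcj, map_one] at h3
      exact lt_irrefl _ h3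
    refine ⟨c j, fun τ hτ => ?_⟩
    have h4 : τ y = algebraMap L N (c j) * (∑ i ∈ c.support,
        algebraMap L N (c i / c j - algebraMap k L (d i)) * τ (β i) + τ (b0 : N)) := by
      have h5 : (b0 : N) = ∑ i ∈ c.support, algebraMap L N (algebraMap k L (d i)) * (β i : N) := by
        change B.val b0 = _
        rw [map_sum]
        refine Finset.sum_congr rfl fun i _ => ?_
        rw [map_smul, Algebra.smul_def, IsScalarTower.algebraMap_apply k L N]
        rfl
      rw [h5, map_sum, ← Finset.sum_add_distrib, Finset.mul_sum, ← hc, Finsupp.sum, map_sum]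
      refine Finset.sum_congr rfl fun i _ => ?_
      rw [map_smul, Algebra.smul_def, map_mul, AlgEquiv.commutes, ← add_mul, ← map_add,
        sub_add_cancel, ← mul_assoc, ← map_mul, mul_div_cancel₀ _ hcj]
    have h6 : W.valuation (τ (b0 : N)) = 1 := by
      apply hB1 _ (hτ _ b0.2)
      intro h
      apply hb0
      have h7 : (b0 : N) = 0 := τ.injective (by rw [h, map_zero])
      exact Subtype.ext h7
    have h8 : W.valuation (∑ i ∈ c.support,
        algebraMap L N (c i / c j - algebraMap k L (d i)) * τ (β i)) < 1 := by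
      refine Valuation.map_sum_lt _ one_ne_zero fun i hi => ?_
      rw [map_mul]
      have h9 := hW2 _ (hd i hi)
      have h10 := (W.valuation_le_one_iff _).2 (hB _ (hτ _ (β i).2))
      exact (mul_le_of_le_one_right' h10).trans_lt h9
    rw [h4, map_mul, Valuation.map_add_eq_of_lt_right _ (by rw [h6]; exact h8), h6, mul_one]
  refine ⟨W, hcomap, fun τ hτ x => ?_⟩
  by_cases hx0 : x = 0
  · rw [hx0, map_zero]
  · obtain ⟨z, hz⟩ := key x hx0
    have h1 := hz τ hτ
    have h2 := hz AlgEquiv.refl fun b hb => hb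
    rw [← W.valuation_le_one_iff, ← W.valuation_le_one_iff, h1, ← h2]
    rfl

end Pool.Agent.Helper31.MT
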