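import Pool.Agent.Helper88.MT.Stm

/-!
Package GAL of the project MT (helper88): the fixed field of the image of a section.
-/

set_option autoImplicit false

namespace Pool.Agent.Helper31.MT

open Pool.Agent.Helper88.MT

/-- Package GAL. -/
theorem gal : S_gal := by
  intro k F N _ _ _ _ _ _ _ _ B _ s hs hsb y
  let H : ClosedSubgroup (N ≃ₐ[F] N) := ⟨s.range, (isCompact_range hs).isClosed⟩
  have hH : (IntermediateField.fixedField s.range : IntermediateField F N).fixingSubgroup =
      s.range := InfiniteGalois.fixingSubgroup_fixedField H
  set L : IntermediateField F N := IntermediateField.fixedField s.range with hL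
  let E : IntermediateField L N := IntermediateField.adjoin L (B : Set N)
  have hE : E.fixingSubgroup = ⊥ := by
    rw [eq_bot_iff]
    intro σ hσ
    rw [Subgroup.mem_bot]
    have h1 : (σ.restrictScalars F : N ≃ₐ[F] N) ∈ L.fixingSubgroup := by
      rw [IntermediateField.mem_fixingSubgroup_iff]
      intro x hx
      exact σ.commutes ⟨x, hx⟩
    rw [hH] at h1
    obtain ⟨g, hg⟩ := h1
    have h2 : g = 1 := by
      ext b
      have h3 := hsb g b
      rw [hg] at h3
      have h4 : σ (b : N) = b := by
        rw [IntermediateField.mem_fixingSubgroup_iff] at hσ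
        exact hσ _ (IntermediateField.subset_adjoin _ _ b.2)
      rw [← h3]
      exact h4
    rw [h2, map_one] at hg
    ext x
    exact (AlgEquiv.congr_fun hg x).symm
  have hE1 : E = ⊤ := by
    rw [← InfiniteGalois.fixedField_fixingSubgroup E, hE, IntermediateField.fixedField_bot]
  have halg : ∀ x ∈ (B : Set N), IsAlgebraic L x := fun x _ =>
    ((Algebra.IsAlgebraic.isAlgebraic (R := F) x)).tower_top L
  have h5 : y ∈ Algebra.adjoin L (B : Set N) := by
    rw [← IntermediateField.adjoin_toSubalgebra_of_isAlgebraic halg]
    change y ∈ E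
    rw [hE1]
    exact IntermediateField.mem_top
  have h6 : y ∈ Subalgebra.toSubmodule (Algebra.adjoin L (B : Set N)) := h5
  rw [Algebra.adjoin_eq_span] at h6
  have h7 : ((Submonoid.closure (B : Set N) : Submonoid N) : Set N) = (B : Set N) := by
    have h8 : Submonoid.closure (B : Set N) = B.toSubfield.toSubring.toSubmonoid :=
      Submonoid.closure_eq B.toSubfield.toSubring.toSubmonoid
    rw [h8]
    rfl
  rw [h7] at h6
  exact h6

end Pool.Agent.Helper31.MT
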